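import Mathlib

/-! Project NUM (MP_70593a_al): the loop lemma for majority operations on infinite relations.
Definitions and exact statements of the subtasks. -/

set_option autoImplicit false

namespace Pool.Agent.W434.NUM

/-- walks of length `k` -/
def Wk {A : Type} (R : A → A → Prop) : ℕ → A → A → Prop
  | 0, x, y => x = y
  | k + 1, x, y => ∃ z, R x z ∧ Wk R k z y

/-- near-unanimity -/
def NU {A : Type} {n : ℕ} (f : (Fin n → A) → A) : Prop :=
  ∀ (x y : A) (i : Fin n), f (Function.update (fun _ => x) i y) = x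

/-- compatible with a binary relation -/
def Cpt {A : Type} {n : ℕ} (f : (Fin n → A) → A) (R : A → A → Prop) : Prop :=
  ∀ x y : Fin n → A, (∀ i, R (x i) (y i)) → R (f x) (f y)

section Hist

variable {n : ℕ}

/-- put a new letter in front of a history (index `0` is the newest letter) -/
def hc (j : Fin n) (h : ℕ → Fin n) : ℕ → Fin n
  | 0 => j
  | m + 1 => h m

/-- forget the `s` newest letters -/
def shf (h : ℕ → Fin n) (s : ℕ) : ℕ → Fin n := fun t => h (t + s)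

/-- the newest `l` letters are `p`-periodic -/
def Per (l p : ℕ) (h : ℕ → Fin n) : Prop := ∀ t, t + p < l → h t = h (t + p)

open Classical in
/-- the exceptional letter: it continues a small period -/
noncomputable def ex (l K : ℕ) (h : ℕ → Fin n) : Fin n :=
  if H : ∃ p, 1 ≤ p ∧ p < K ∧ Per l p h then h (Nat.find H - 1) else h 0

/-- the letter of age `i` is exceptional -/
def Exc (l K : ℕ) (h : ℕ → Fin n) (i : ℕ) : Prop := h i = ex l K (shf h (i + 1))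

/-- code of the word of length `l` starting at age `i` -/
def col (l : ℕ) (h : ℕ → Fin n) (i : ℕ) : ℕ := ∑ t ∈ Finset.range l, (h (i + t)).val * n ^ t

/-- the letter of age `i` is a marker: exceptional, or a strict local minimum of the code away from
exceptional letters -/
def Mk (l K : ℕ) (h : ℕ → Fin n) (i : ℕ) : Prop :=
  Exc l K h i ∨
  ((∀ s, s < i + K → i < s + K → ¬ Exc l K h s) ∧
    ∀ s, s ≠ i → s < i + K → i < s + K → col l h i < col l h s)

end Hist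

/-- NUM-LAB: the history labelling lemma. -/
def S_lab : Prop :=
  ∀ (A : Type) (R : A → A → Prop) (n : ℕ) (f : (Fin n → A) → A) (m : ℕ) (φ : (ℕ → Fin n) → A),
    1 ≤ n → (∀ x, f (fun _ => x) = x) → Cpt f R →
    (∀ h h' : ℕ → Fin n, (∀ t < m, h t = h' t) → φ h = φ h') →
    (∀ h, R (φ h) (f (fun j => φ (hc j h)))) → ∃ a, R a a

/-- NUM-MK: markers. -/
def S_mk : Prop :=
  ∀ n K : ℕ, 1 ≤ n → 1 ≤ K → ∃ D : ℕ, ∀ h : ℕ → Fin n,
    (∀ j i, K ≤ i + 1 → (Mk (2 * K) K (hc j h) (i + 1) ↔ Mk (2 * K) K h i)) ∧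
    (∀ i i', i' < i → Mk (2 * K) K h i → Mk (2 * K) K h i' → ¬ Exc (2 * K) K h i' → i' + K ≤ i) ∧
    (∀ i, (∀ s, i ≤ s → s ≤ i + D → ¬ Exc (2 * K) K h s) →
      ∃ i', i ≤ i' ∧ i' ≤ i + D ∧ Mk (2 * K) K h i')

/-- NUM-CLOCK: a clock with finite memory. -/
def S_clock : Prop :=
  ∀ n K : ℕ, 1 ≤ n → 1 ≤ K →
    ∃ (m : ℕ) (e : (ℕ → Fin n) → Fin n) (g i : (ℕ → Fin n) → ℕ),
      (∀ h h' : ℕ → Fin n, (∀ t < m, h t = h' t) → g h = g h' ∧ i h = i h') ∧
      (∀ h, i h < g h ∧ K ≤ g h) ∧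
      (∀ h j, j ≠ e h →
        (i h + 1 < g h ∧ g (hc j h) = g h ∧ i (hc j h) = i h + 1) ∨
        (i h + 1 = g h ∧ i (hc j h) = 0)) ∧
      (∀ h, i (hc (e h) h) = 0)

/-- NUM-SCA: closed walks of all large lengths at one vertex give a loop. -/
def S_sca : Prop :=
  ∀ (A : Type) (R : A → A → Prop) (n : ℕ) (f : (Fin n → A) → A), 1 ≤ n → NU f → Cpt f R →
    ∀ (c : A) (N : ℕ), (∀ k, N ≤ k → Wk R k c c) → ∃ a, R a a

/-- NUM-HEL: Helly property of sets absorbing through a majority operation. -/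
def S_hel : Prop :=
  ∀ (W : Type) (m : W → W → W → W) (k : ℕ) (X : Fin k → Set W), Nonempty W →
    (∀ i, ∀ y ∈ X i, ∀ y' ∈ X i, ∀ z, m y y' z ∈ X i ∧ m y z y' ∈ X i ∧ m z y y' ∈ X i) →
    (∀ i j, (X i ∩ X j).Nonempty) → ∃ y, ∀ i, y ∈ X i

/-- NUM-FIX: fixed points for majority operations compatible with a preorder. -/
def S_fix : Prop :=
  ∀ (W : Type) (m : W → W → W → W) (le : W → W → Prop) (τ : W → W) (L : ℕ), 1 ≤ L →
    (∀ x y, m x x y = x ∧ m x y x = x ∧ m y x x = x) →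
    (∀ x, le x x) → (∀ x y z, le x y → le y z → le x z) →
    (∀ x x' y y' z z', le x x' → le y y' → le z z' → le (m x y z) (m x' y' z')) →
    (∀ x y z, τ (m x y z) = m (τ x) (τ y) (τ z)) → (∀ x y, le x y → le (τ x) (τ y)) →
    (∀ x, τ^[L] x = x) →
    ∀ x, Relation.ReflTransGen (fun a b => le a b ∨ le b a) x (τ x) → ∃ c, le (τ c) c

/-- NUM-RED: a vertex with closed walks of all large lengths. -/
def S_red : Prop :=
  ∀ (A : Type) (R : A → A → Prop) (S : Finset (A × A)),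
    (∀ p ∈ S, R p.1 p.2) →
    (∀ p ∈ S, (∃ q ∈ S, q.2 = p.1) ∧ (∃ q ∈ S, q.1 = p.2)) →
    (∃ (k : ℕ) (v : ℕ → A) (e : ℕ → ℤ), v k = v 0 ∧
      (∀ i < k, (e i = 1 ∧ (v i, v (i + 1)) ∈ S) ∨ (e i = -1 ∧ (v (i + 1), v i) ∈ S)) ∧
      ∑ i ∈ Finset.range k, e i = 1) →
    ∀ f : (Fin 3 → A) → A, NU f → Cpt f R → ∃ (c : A) (N : ℕ), ∀ k, N ≤ k → Wk R k c c

/-- the statement of the hand-in -/
def S_maj : Prop :=
  ∀ (A : Type) (R : A → A → Prop) (S : Finset (A × A)),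
    (∀ p ∈ S, R p.1 p.2) →
    (∀ p ∈ S, (∃ q ∈ S, q.2 = p.1) ∧ (∃ q ∈ S, q.1 = p.2)) →
    (∃ (k : ℕ) (v : ℕ → A) (e : ℕ → ℤ), v k = v 0 ∧
      (∀ i < k, (e i = 1 ∧ (v i, v (i + 1)) ∈ S) ∨ (e i = -1 ∧ (v (i + 1), v i) ∈ S)) ∧
      ∑ i ∈ Finset.range k, e i = 1) →
    ∀ f : (Fin 3 → A) → A, NU f → Cpt f R → ∃ a, R a a

theorem maj_of (hr : S_red) (hs : S_sca) : S_maj := by
  intro A R S h1 h2 h3 f hf hc
  obtain ⟨c, N, h⟩ := hr A R S h1 h2 h3 f hf hc
  exact hs A R 3 f (by norm_num) hf hc c N h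

end Pool.Agent.W434.NUM
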